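import Mathlib

/-!
# MP_4a8fbb_co, Q1: the icosahedron and the dodecahedron can be enlarged by jumps
-/

namespace Pool.Agent.Results.MP_4a8fbb_co.BothEnlarge

/-- One legal move: piece `i` is reflected in the position of another piece `j`,
so it goes from `p i` to `2 p j - p i`; the other pieces stay. -/
def Jump {ι A : Type*} [AddCommGroup A] (p q : ι → A) : Prop :=
  ∃ i j, i ≠ j ∧ q i = p j + p j - p i ∧ ∀ k, k ≠ i → q k = p k

/-- `q` is reached from `p` by finitely many legal moves. -/
def Reach {ι A : Type*} [AddCommGroup A] (p q : ι → A) : Prop :=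
  Relation.ReflTransGen Jump p q

/-- Euclidean three-space -/
abbrev E3 := EuclideanSpace ℝ (Fin 3)

/-- A vertex set `T` can be enlarged: starting with one piece at each point of `T`, finitely many
legal moves put the pieces onto the set `σ(T)`, where `σ` is a similarity of ratio `r > 1`. -/
def CanBeEnlarged (T : Set E3) : Prop :=
  ∃ (q : T → E3) (σ : E3 → E3) (r : ℝ), 1 < r ∧ (∀ x y, dist (σ x) (σ y) = r * dist x y) ∧
    Reach (fun v : T => (v : E3)) q ∧ Set.range q = σ '' T

/-- the golden ratio `(1 + √5)/2` -/
noncomputable def phi : ℝ := (1 + Real.sqrt 5) / 2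

/-- The vertices of a regular icosahedron: the cyclic permutations of `(0, ±1, ±φ)`. -/
def icosahedron : Set E3 :=
  {x | ∃ k : Fin 3, x k = 0 ∧ (x (k + 1) = 1 ∨ x (k + 1) = -1) ∧
    (x (k + 2) = phi ∨ x (k + 2) = -phi)}

/-- The vertices of a regular dodecahedron: `(±1, ±1, ±1)` and the cyclic permutations of
`(0, ±1/φ, ±φ)`. -/
def dodecahedron : Set E3 :=
  {x | (∀ k, x k = 1 ∨ x k = -1) ∨ ∃ k : Fin 3, x k = 0 ∧ (x (k + 1) = 1 / phi ∨ x (k + 1) = -(1 / phi)) ∧
    (x (k + 2) = phi ∨ x (k + 2) = -phi)}

/-! ## general lemmas about moves -/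

section general

variable {ι A : Type*} [AddCommGroup A] [DecidableEq ι]

lemma jump_update (p : ι → A) (i j : ι) (h : i ≠ j) :
    Jump p (Function.update p i (p j + p j - p i)) :=
  ⟨i, j, h, by simp, fun k hk => by simp [hk]⟩

/-- two jumps translate a piece -/
lemma reach_pair (p : ι → A) (i a b : ι) (ha : a ≠ i) (hb : b ≠ i) :
    Reach p (Function.update p i (p i + ((p b - p a) + (p b - p a)))) := by
  have h1 := jump_update p i a ha.symm
  have h2 := jump_update (Function.update p i (p a + p a - p i)) i b hb.symm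
  have e : Function.update (Function.update p i (p a + p a - p i)) i
      (Function.update p i (p a + p a - p i) b + Function.update p i (p a + p a - p i) b
        - Function.update p i (p a + p a - p i) i)
      = Function.update p i (p i + ((p b - p a) + (p b - p a))) := by
    rw [Function.update_idem, Function.update_of_ne hb, Function.update_self]
    congr 1
    abel
  rw [e] at h2
  exact (Relation.ReflTransGen.single h1).tail h2

/-- doubled differences along a list of pairs -/
def disp (p : ι → A) (L : List (ι × ι)) : A :=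
  (L.map (fun ab => (p ab.2 - p ab.1) + (p ab.2 - p ab.1))).sum

lemma reach_list (i : ι) (L : List (ι × ι)) : ∀ p : ι → A, (∀ ab ∈ L, ab.1 ≠ i ∧ ab.2 ≠ i) →
    Reach p (Function.update p i (p i + disp p L)) := by
  induction L with
  | nil =>
    intro p _
    unfold disp
    simp only [List.map_nil, List.sum_nil, add_zero, Function.update_eq_self]
    exact Relation.ReflTransGen.refl
  | cons ab L ih =>
    intro p h
    have hab := h ab (by simp)
    have h1 := reach_pair p i ab.1 ab.2 hab.1 hab.2
    set p' := Function.update p i (p i + ((p ab.2 - p ab.1) + (p ab.2 - p ab.1))) with hp'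
    have h2 := ih p' (fun cd hcd => h cd (by simp [hcd]))
    have e : disp p' L = disp p L := by
      unfold disp
      congr 1
      apply List.map_congr_left
      intro cd hcd
      have := h cd (by simp [hcd])
      rw [hp', Function.update_of_ne this.1, Function.update_of_ne this.2]
    have e2 : Function.update p' i (p' i + disp p' L)
        = Function.update p i (p i + disp p (ab :: L)) := by
      rw [e, hp', Function.update_idem, Function.update_self]
      congr 1
      unfold disp
      rw [List.map_cons, List.sum_cons]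
      abel
    rw [e2] at h2
    exact h1.trans h2

/-- current positions when the pieces in `S` have been moved from `P` to `Q` -/
def cur (P Q : ι → A) (S : List ι) (j : ι) : A := if j ∈ S then Q j else P j

/-- check of a plan -/
def check [DecidableEq A] (P Q : ι → A) : List (ι × List (ι × ι)) → List ι → Bool
  | [], _ => true
  | (i, L) :: r, S => decide (i ∉ S) && L.all (fun ab => decide (ab.1 ≠ i) && decide (ab.2 ≠ i)) &&
      decide (Q i = P i + disp (cur P Q S) L) && check P Q r (i :: S)

/-- pieces moved by a plan -/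
def moved : List (ι × List (ι × ι)) → List ι → List ι
  | [], S => S
  | (i, _) :: r, S => moved r (i :: S)

lemma reach_plan [DecidableEq A] (P Q : ι → A) (plan : List (ι × List (ι × ι))) :
    ∀ S : List ι, check P Q plan S = true → Reach (cur P Q S) (cur P Q (moved plan S)) := by
  induction plan with
  | nil => intro S _; exact Relation.ReflTransGen.refl
  | cons iL r ih =>
    obtain ⟨i, L⟩ := iL
    intro S h
    unfold check at h
    simp only [Bool.and_eq_true, decide_eq_true_eq, List.all_eq_true] at h
    obtain ⟨⟨⟨h1, h2⟩, h3⟩, h4⟩ := h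
    have h5 := reach_list i L (cur P Q S) h2
    have e : Function.update (cur P Q S) i (cur P Q S i + disp (cur P Q S) L)
        = cur P Q (i :: S) := by
      have : cur P Q S i = P i := by simp [cur, h1]
      rw [this, ← h3]
      funext j
      by_cases hj : j = i
      · subst hj; simp [cur]
      · rw [Function.update_of_ne hj]; simp [cur, hj]
    rw [e] at h5
    exact h5.trans (ih _ h4)

omit [DecidableEq ι] in
lemma reach_map {B : Type*} [AddCommGroup B] (f : A →+ B) {p q : ι → A} (h : Reach p q) :
    Reach (fun i => f (p i)) (fun i => f (q i)) := by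
  induction h with
  | refl => exact Relation.ReflTransGen.refl
  | tail _ hj ih =>
    refine Relation.ReflTransGen.tail ih ?_
    obtain ⟨i, j, hij, h1, h2⟩ := hj
    exact ⟨i, j, hij, by simp only [h1, map_add, map_sub], fun k hk => by simp only [h2 k hk]⟩

omit [DecidableEq ι] in
lemma reach_equiv {κ : Type*} (e : κ ≃ ι) {p q : ι → A} (h : Reach p q) :
    Reach (fun k => p (e k)) (fun k => q (e k)) := by
  induction h with
  | refl => exact Relation.ReflTransGen.refl
  | tail _ hj ih =>
    refine Relation.ReflTransGen.tail ih ?_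
    obtain ⟨i, j, hij, h1, h2⟩ := hj
    exact ⟨e.symm i, e.symm j, fun hc => hij (e.symm.injective hc), by simpa using h1,
      fun k hk => h2 (e k) (fun hc => hk (by rw [← hc]; simp))⟩

end general

/-! ## the integer model -/

/-- triples of elements of `ℤ[φ]`, `(a, b)` standing for `a + b φ` -/
abbrev Z3 := Fin 3 → ℤ × ℤ

/-- multiplication by `φ ^ 3 = 1 + 2 φ` in `ℤ[φ]` -/
def mul3 (x : ℤ × ℤ) : ℤ × ℤ := (x.1 + 2 * x.2, 2 * x.1 + 3 * x.2)

/-- the target position of a vertex -/
def target {n : ℕ} [NeZero n] (V : Fin n → Z3) (i : Fin n) : Z3 :=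
  fun c => V 0 c + mul3 (V i c - V 0 c)

/-- sign from a bit -/
def sg (b : ℕ) : ℤ := if b % 2 = 0 then 1 else -1

/-- the icosahedron in the integer model -/
def icoZ (i : Fin 12) : Z3 := fun c =>
  let k := i.val / 4
  if c.val = k then (0, 0) else if c.val = (k + 1) % 3 then (sg (i.val / 2), 0) else (0, sg i.val)

/-- the dodecahedron in the integer model -/
def dodZ (i : Fin 20) : Z3 := fun c =>
  if i.val < 8 then (sg (i.val / 2 ^ c.val), 0) else
  let k := (i.val - 8) / 4
  if c.val = k then (0, 0) else if c.val = (k + 1) % 3 then (-sg (i.val / 2), sg (i.val / 2))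
  else (0, sg i.val)

/-- plan for the icosahedron: for each piece the list of pairs `(a, b)`; the piece jumps over `a`
and then over `b` -/
def icoPlan : List (Fin 12 × List (Fin 12 × Fin 12)) :=
  [(0, []), (8, [(2, 6)]), (2, [(10, 11)]), (10, [(4, 1)]), (4, [(5, 9)]), (7, [(0, 2), (4, 8)]),
  (6, [(0, 1), (5, 9)]), (5, [(1, 2), (4, 8)]), (9, [(0, 5), (10, 8)]), (11, [(0, 4), (8, 10)]),
  (1, [(0, 4), (2, 5)]), (3, [(0, 2), (0, 4), (0, 5), (9, 8)])]

/-- plan for the dodecahedron -/
def dodPlan : List (Fin 20 × List (Fin 20 × Fin 20)) :=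
  [(0, []), (2, [(16, 17)]), (1, [(12, 13)]), (12, [(5, 11)]), (8, [(6, 19)]), (4, [(10, 11)]),
  (10, [(16, 3)]), (16, [(3, 15)]), (13, [(0, 1), (19, 12)]), (19, [(1, 13)]),
  (17, [(0, 2), (11, 16)]), (11, [(2, 17)]), (7, [(1, 13), (3, 15)]), (9, [(0, 4), (15, 8)]),
  (15, [(4, 9)]), (3, [(1, 0), (14, 13)]), (18, [(1, 7), (17, 8)]), (14, [(0, 3), (13, 16)]),
  (5, [(0, 1), (0, 12), (2, 12)]), (6, [(0, 4), (0, 8), (1, 8)])]

lemma ico_check : check icoZ (target icoZ) icoPlan [] = true := by decide +kernel

lemma dod_check : check dodZ (target dodZ) dodPlan [] = true := by decide +kernel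

lemma ico_moved : ∀ j : Fin 12, j ∈ moved icoPlan [] := by decide +kernel

lemma dod_moved : ∀ j : Fin 20, j ∈ moved dodPlan [] := by decide +kernel

lemma ico_inj : Function.Injective icoZ := by decide +kernel

lemma dod_inj : Function.Injective dodZ := by decide +kernel

/-! ## passing to the reals -/

lemma phi_sq : phi ^ 2 = phi + 1 := by
  unfold phi
  have h : Real.sqrt 5 ^ 2 = 5 := Real.sq_sqrt (by norm_num)
  nlinarith

lemma phi_gt : 1 < phi := by
  unfold phi
  have h : (2 : ℝ) < Real.sqrt 5 := by
    rw [Real.lt_sqrt (by norm_num)]; norm_num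
  linarith

lemma inv_phi : 1 / phi = phi - 1 := by
  have h := phi_sq
  have h1 := phi_gt
  rw [div_eq_iff (by linarith)]
  nlinarith

lemma phi_irr : Irrational phi := by
  have h : Irrational (Real.sqrt 5) := by
    have := Nat.Prime.irrational_sqrt (p := 5) (by norm_num)
    simpa using this
  unfold phi
  have h1 : Irrational (1 + Real.sqrt 5) := by
    simpa using h.natCast_add 1
  simpa using h1.div_natCast (m := 2) (by norm_num)

/-- the additive map from the integer model to space -/
noncomputable def real : Z3 →+ E3 where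
  toFun x := WithLp.toLp 2 (fun c => ((x c).1 : ℝ) + ((x c).2 : ℝ) * phi)
  map_zero' := by
    ext c; simp
  map_add' x y := by
    ext c; simp; ring

lemma real_apply (x : Z3) (c : Fin 3) : real x c = ((x c).1 : ℝ) + ((x c).2 : ℝ) * phi := rfl

lemma real_inj : Function.Injective real := by
  intro x y h
  funext c
  have hc : real x c = real y c := by rw [h]
  rw [real_apply, real_apply] at hc
  have h2 : (x c).2 = (y c).2 := by
    by_contra hne
    have hne' : (((x c).2 - (y c).2 : ℤ) : ℝ) ≠ 0 := by
      exact_mod_cast sub_ne_zero.mpr hne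
    have : phi = (((y c).1 - (x c).1 : ℤ) : ℝ) / (((x c).2 - (y c).2 : ℤ) : ℝ) := by
      rw [eq_div_iff hne']
      push_cast
      linarith
    apply phi_irr
    refine ⟨(((y c).1 - (x c).1 : ℤ) : ℚ) / (((x c).2 - (y c).2 : ℤ) : ℚ), ?_⟩
    rw [this]
    push_cast
    rfl
  have h1 : (x c).1 = (y c).1 := by
    rw [h2] at hc
    have : ((x c).1 : ℝ) = ((y c).1 : ℝ) := by linarith
    exact_mod_cast this
  exact Prod.ext h1 h2

lemma real_target {n : ℕ} [NeZero n] (V : Fin n → Z3) (i : Fin n) :
    real (target V i) = real (V 0) + phi ^ 3 • (real (V i) - real (V 0)) := by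
  ext c
  have h3 : phi ^ 3 = 1 + 2 * phi := by
    have := phi_sq
    nlinarith
  have h2 := phi_sq
  rw [h3]
  simp only [PiLp.add_apply, PiLp.smul_apply, PiLp.sub_apply, smul_eq_mul, real_apply]
  unfold target mul3
  simp only [Prod.fst_add, Prod.snd_add, Prod.fst_sub, Prod.snd_sub]
  push_cast
  linear_combination (-2 * (((V i c).2 : ℝ) - (V 0 c).2)) * h2

lemma enlarge {n : ℕ} [NeZero n] (V : Fin n → Z3) (T : Set E3) (hinj : Function.Injective V)
    (plan : List (Fin n × List (Fin n × Fin n))) (hc : check V (target V) plan [] = true)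
    (hm : ∀ j, j ∈ moved plan []) (hT : Set.range (fun i => real (V i)) = T) :
    CanBeEnlarged T := by
  subst hT
  set p : Fin n → E3 := fun i => real (V i) with hp
  have hpinj : Function.Injective p := real_inj.comp hinj
  let e : Fin n ≃ Set.range p := Equiv.ofInjective p hpinj
  have h1 : Reach V (target V) := by
    have := reach_plan V (target V) plan [] hc
    have e1 : cur V (target V) [] = V := by funext j; simp [cur]
    have e2 : cur V (target V) (moved plan []) = target V := by
      funext j; simp [cur, hm j]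
    rwa [e1, e2] at this
  have h2 := reach_map real h1
  have h3 := reach_equiv e.symm h2
  have e3 : (fun k : Set.range p => real (V (e.symm k))) = fun v : Set.range p => (v : E3) := by
    funext k
    have : p (e.symm k) = ((e (e.symm k) : Set.range p) : E3) := rfl
    rw [e.apply_symm_apply] at this
    exact this
  rw [e3] at h3
  refine ⟨fun k => real (target V (e.symm k)),
    fun x => real (V 0) + phi ^ 3 • (x - real (V 0)), phi ^ 3, ?_, ?_, h3, ?_⟩
  · exact one_lt_pow₀ phi_gt (by norm_num)
  · intro x y
    have h0 : 0 ≤ phi ^ 3 := by have := phi_gt; positivity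
    rw [dist_add_left, dist_eq_norm, ← smul_sub, norm_smul, Real.norm_of_nonneg h0,
      sub_sub_sub_cancel_right, dist_eq_norm]
  · ext x
    constructor
    · rintro ⟨k, rfl⟩
      refine ⟨p (e.symm k), ⟨_, rfl⟩, ?_⟩
      simp only [hp]
      rw [real_target]
    · rintro ⟨_, ⟨i, rfl⟩, rfl⟩
      refine ⟨e i, ?_⟩
      simp only [hp, Equiv.symm_apply_apply]
      rw [real_target]

lemma ico_range : Set.range (fun i => real (icoZ i)) = icosahedron := by
  ext x
  constructor
  · rintro ⟨i, rfl⟩
    have key : ∀ i : Fin 12, ∃ k : Fin 3, icoZ i k = (0, 0) ∧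
        (icoZ i (k + 1) = (1, 0) ∨ icoZ i (k + 1) = (-1, 0)) ∧
        (icoZ i (k + 2) = (0, 1) ∨ icoZ i (k + 2) = (0, -1)) := by decide +kernel
    obtain ⟨k, h0, h1, h2⟩ := key i
    refine ⟨k, ?_, ?_, ?_⟩
    · simp only [real_apply, h0]; simp
    · rcases h1 with h | h
      · left; simp only [real_apply, h]; simp
      · right; simp only [real_apply, h]; simp
    · rcases h2 with h | h
      · left; simp only [real_apply, h]; simp
      · right; simp only [real_apply, h]; simp
  · rintro ⟨k, h0, h1, h2⟩
    have key : ∀ k : Fin 3, ∀ s t : Bool, ∃ i : Fin 12, icoZ i k = (0, 0) ∧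
        icoZ i (k + 1) = ((if s then 1 else -1), 0) ∧
        icoZ i (k + 2) = (0, (if t then 1 else -1)) := by decide +kernel
    have hall : ∀ k c : Fin 3, c = k ∨ c = k + 1 ∨ c = k + 2 := by decide
    obtain ⟨s, hs⟩ : ∃ s : Bool, x (k + 1) = ((if s then 1 else -1 : ℤ) : ℝ) := by
      rcases h1 with h | h
      · exact ⟨true, by rw [h]; simp⟩
      · exact ⟨false, by rw [h]; simp⟩
    obtain ⟨t, ht⟩ : ∃ t : Bool, x (k + 2) = ((if t then 1 else -1 : ℤ) : ℝ) * phi := by
      rcases h2 with h | h
      · exact ⟨true, by rw [h]; simp⟩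
      · exact ⟨false, by rw [h]; simp⟩
    obtain ⟨i, hi0, hi1, hi2⟩ := key k s t
    refine ⟨i, ?_⟩
    ext c
    simp only [real_apply]
    rcases hall k c with rfl | rfl | rfl
    · rw [hi0, h0]; simp
    · rw [hi1, hs]; simp
    · rw [hi2, ht]; simp

lemma dod_range : Set.range (fun i => real (dodZ i)) = dodecahedron := by
  ext x
  have hip : (-1 : ℝ) + phi = 1 / phi := by rw [inv_phi]; ring
  constructor
  · rintro ⟨i, rfl⟩
    have key : ∀ i : Fin 20, (∀ k, dodZ i k = (1, 0) ∨ dodZ i k = (-1, 0)) ∨
        ∃ k : Fin 3, dodZ i k = (0, 0) ∧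
        (dodZ i (k + 1) = (-1, 1) ∨ dodZ i (k + 1) = (1, -1)) ∧
        (dodZ i (k + 2) = (0, 1) ∨ dodZ i (k + 2) = (0, -1)) := by decide +kernel
    rcases key i with h | ⟨k, h0, h1, h2⟩
    · left
      intro k
      rcases h k with h | h
      · left; simp only [real_apply, h]; simp
      · right; simp only [real_apply, h]; simp
    · right
      refine ⟨k, ?_, ?_, ?_⟩
      · simp only [real_apply, h0]; simp
      · rcases h1 with h | h
        · left; simp only [real_apply, h]; rw [← hip]; push_cast; ring
        · right; simp only [real_apply, h]; rw [← hip]; push_cast; ring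
      · rcases h2 with h | h
        · left; simp only [real_apply, h]; simp
        · right; simp only [real_apply, h]; simp
  · rintro (h | ⟨k, h0, h1, h2⟩)
    · have key : ∀ s t u : Bool, ∃ i : Fin 20, dodZ i 0 = ((if s then 1 else -1), 0) ∧
          dodZ i 1 = ((if t then 1 else -1), 0) ∧ dodZ i 2 = ((if u then 1 else -1), 0) := by
        decide +kernel
      have hb : ∀ k, ∃ s : Bool, x k = ((if s then 1 else -1 : ℤ) : ℝ) := by
        intro k
        rcases h k with h | h
        · exact ⟨true, by rw [h]; simp⟩
        · exact ⟨false, by rw [h]; simp⟩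
      obtain ⟨s, hs⟩ := hb 0
      obtain ⟨t, ht⟩ := hb 1
      obtain ⟨u, hu⟩ := hb 2
      obtain ⟨i, hi0, hi1, hi2⟩ := key s t u
      refine ⟨i, ?_⟩
      ext c
      simp only [real_apply]
      fin_cases c
      · simp only [Fin.zero_eta]; rw [hi0, hs]; simp
      · simp only [Fin.mk_one]; rw [hi1, ht]; simp
      · simp only [Fin.reduceFinMk]; rw [hi2, hu]; simp
    · have key : ∀ k : Fin 3, ∀ s t : Bool, ∃ i : Fin 20, dodZ i k = (0, 0) ∧
          dodZ i (k + 1) = ((if s then -1 else 1), (if s then 1 else -1)) ∧
          dodZ i (k + 2) = (0, (if t then 1 else -1)) := by decide +kernel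
      have hall : ∀ k c : Fin 3, c = k ∨ c = k + 1 ∨ c = k + 2 := by decide
      obtain ⟨s, hs⟩ : ∃ s : Bool, x (k + 1) = ((if s then -1 else 1 : ℤ) : ℝ) +
          ((if s then 1 else -1 : ℤ) : ℝ) * phi := by
        rcases h1 with h | h
        · exact ⟨true, by rw [h, ← hip]; simp⟩
        · exact ⟨false, by rw [h, ← hip]; simp; ring⟩
      obtain ⟨t, ht⟩ : ∃ t : Bool, x (k + 2) = ((if t then 1 else -1 : ℤ) : ℝ) * phi := by
        rcases h2 with h | h
        · exact ⟨true, by rw [h]; simp⟩
        · exact ⟨false, by rw [h]; simp⟩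
      obtain ⟨i, hi0, hi1, hi2⟩ := key k s t
      refine ⟨i, ?_⟩
      ext c
      simp only [real_apply]
      rcases hall k c with rfl | rfl | rfl
      · rw [hi0, h0]; simp
      · rw [hi1, hs]
      · rw [hi2, ht]; simp

/-- **Both the regular icosahedron and the regular dodecahedron can be enlarged.** -/
theorem result : CanBeEnlarged icosahedron ∧ CanBeEnlarged dodecahedron :=
  ⟨enlarge icoZ icosahedron ico_inj icoPlan ico_check ico_moved ico_range,
    enlarge dodZ dodecahedron dod_inj dodPlan dod_check dod_moved dod_range⟩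

end Pool.Agent.Results.MP_4a8fbb_co.BothEnlarge
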